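import Pool.Agent.Helper3.CF.Count
import Pool.Agent.Helper3.SG.All

set_option autoImplicit false

/-!
# MP_f07b9f_nt: extremal coprime-free sets of ideals

For a number field with at least three prime ideals of norm `2` all extremal coprime-free subsets
of `Θ(x)` are determined for all large `x`: they are the largest members of the explicit finite list
`fam K H x`, `H` running over the maximal intersecting families of sets of prime ideals of norm `2`.
Which of these families is the best one changes infinitely often: two families with the same profile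
(numbers of members of each size) always tie, and of two families with different profiles each is
strictly better than the other for arbitrarily large `x`.  For three and for four prime ideals of norm `2`
the answer is given by an explicit inequality.
-/

open Filter Topology NumberField

namespace Pool.Agent.Results.MP_f07b9f_nt.Extremal

variable (K : Type*) [Field K] [NumberField K]

/-- `Θ(x)`: the nonzero ideals of the ring of integers of norm at most `x` -/
def Theta (x : ℝ) : Set (Ideal (𝓞 K)) := {I | I ≠ ⊥ ∧ (Ideal.absNorm I : ℝ) ≤ x}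

variable {K} in
/-- any two distinct members are both divisible by some prime ideal -/
def CoprimeFree (A : Set (Ideal (𝓞 K))) : Prop :=
  ∀ I ∈ A, ∀ J ∈ A, I ≠ J → ∃ p : Ideal (𝓞 K), Prime p ∧ p ∣ I ∧ p ∣ J

/-- largest coprime-free subsets of `Θ(x)` -/
def IsExtremal (x : ℝ) (A : Set (Ideal (𝓞 K))) : Prop :=
  A ⊆ Theta K x ∧ CoprimeFree A ∧ ∀ B ⊆ Theta K x, CoprimeFree B → B.ncard ≤ A.ncard

/-- the prime ideals of norm `2` -/
def P2 : Set (Ideal (𝓞 K)) := {p | Prime p ∧ Ideal.absNorm p = 2}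

/-- maximal intersecting families of sets of prime ideals of norm `2`: any two members meet, and
of any two complementary sets one is a member -/
def MaxInt (H : Set (Set (Ideal (𝓞 K)))) : Prop :=
  (∀ S ∈ H, S ⊆ P2 K) ∧ (∀ S ∈ H, ∀ T ∈ H, (S ∩ T).Nonempty) ∧
    ∀ S ⊆ P2 K, S ∈ H ∨ P2 K \ S ∈ H

/-- the ideals in `Θ(x)` whose set of prime divisors of norm `2` belongs to `H` -/
def fam (H : Set (Set (Ideal (𝓞 K)))) (x : ℝ) : Set (Ideal (𝓞 K)) :=
  {I ∈ Theta K x | {p ∈ P2 K | p ∣ I} ∈ H}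

/-- the number of nonzero ideals of norm at most `x` -/
noncomputable def Jc (x : ℝ) : ℕ := (Theta K x).ncard

/-! ### translation to finite sets -/

open Pool.Agent.Helper3 in
theorem Theta_eq {x : ℝ} (hx : 0 ≤ x) : Theta K x = ↑(CF.Th K ⌊x⌋₊) := by
  ext I
  simp only [Theta, Set.mem_ofPred_eq, Finset.mem_coe, CF.mem_Th]
  rw [Nat.le_floor_iff hx]

open Pool.Agent.Helper3 in
theorem Jc_eq {x : ℝ} (hx : 0 ≤ x) : Jc K x = CF.J K ⌊x⌋₊ := by
  rw [Jc, Theta_eq K hx, Set.ncard_coe_finset, CF.J]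

open Pool.Agent.Helper3 in
theorem Jc_div {x : ℝ} (hx : 0 ≤ x) (m : ℕ) : Jc K (x / m) = CF.J K (⌊x⌋₊ / m) := by
  rw [Jc_eq K (by positivity), Nat.floor_div_natCast]

open Pool.Agent.Helper3 in
theorem CF_iff (A : Finset (Ideal (𝓞 K))) : CoprimeFree (A : Set (Ideal (𝓞 K))) ↔ CF.CFr A :=
  Iff.rfl

open Pool.Agent.Helper3 in
theorem extremal_iff {x : ℝ} (hx : 0 ≤ x) (A : Finset (Ideal (𝓞 K))) :
    IsExtremal K x (A : Set (Ideal (𝓞 K))) ↔
      (A ⊆ CF.Th K ⌊x⌋₊ ∧ CF.CFr A ∧ ∀ B ⊆ CF.Th K ⌊x⌋₊, CF.CFr B → B.card ≤ A.card) := by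
  unfold IsExtremal
  rw [Theta_eq K hx, Finset.coe_subset, Set.ncard_coe_finset]
  refine and_congr_right fun _ => and_congr (CF_iff K A) ⟨fun h B hB hBC => ?_, fun h B hB hBC => ?_⟩
  · have := h (B : Set (Ideal (𝓞 K))) (Finset.coe_subset.2 hB) hBC
    rwa [Set.ncard_coe_finset] at this
  · obtain ⟨B', rfl⟩ : ∃ B' : Finset (Ideal (𝓞 K)), (B' : Set (Ideal (𝓞 K))) = B :=
      (Set.Finite.subset (Finset.finite_toSet _) hB).exists_finset_coe
    rw [Set.ncard_coe_finset]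
    exact h B' (Finset.coe_subset.1 hB) hBC

theorem P2_finite : (P2 K).Finite :=
  (Ideal.finite_setOfPred_absNorm_eq (S := 𝓞 K) 2).subset fun _ h => h.2

/-- the finite set of prime ideals of norm two -/
noncomputable def E : Finset (Ideal (𝓞 K)) := (P2_finite K).toFinset

open Pool.Agent.Helper3 in
theorem isE2 : CF.IsE2 (E K) := fun p => by
  rw [E, Set.Finite.mem_toFinset]; rfl

theorem coe_E : (E K : Set (Ideal (𝓞 K))) = P2 K := Set.Finite.coe_toFinset _

theorem E_card : (E K).card = (P2 K).ncard := by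
  rw [← coe_E, Set.ncard_coe_finset]

open Pool.Agent.Helper3 in
open scoped Classical in
theorem coe_tr (I : Ideal (𝓞 K)) : (↑(CF.tr (E K) I) : Set (Ideal (𝓞 K))) = {p ∈ P2 K | p ∣ I} := by
  ext p
  rw [Finset.mem_coe, CF.mem_tr, ← Finset.mem_coe, coe_E]
  rfl

open scoped Classical in
/-- finite version of a family of sets -/
noncomputable def fin (H : Set (Set (Ideal (𝓞 K)))) : Finset (Finset (Ideal (𝓞 K))) :=
  (E K).powerset.filter (fun S => (S : Set (Ideal (𝓞 K))) ∈ H)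

open Pool.Agent.Helper3 in
theorem fam_eq {x : ℝ} (hx : 0 ≤ x) (H : Set (Set (Ideal (𝓞 K)))) :
    fam K H x = ↑(CF.fam (E K) (fin K H) ⌊x⌋₊) := by
  classical
  ext I
  simp only [fam, Set.mem_ofPred_eq, CF.fam, Finset.coe_filter, fin, Finset.mem_filter,
    Finset.mem_powerset]
  rw [coe_tr, Theta_eq K hx, Finset.mem_coe]
  exact ⟨fun h => ⟨h.1, CF.tr_sub _ _, h.2⟩, fun h => ⟨h.1, h.2.2⟩⟩

open Pool.Agent.Helper3 in
theorem fin_MaxI {H : Set (Set (Ideal (𝓞 K)))} (hH : MaxInt K H) : CF.MaxI (E K) (fin K H) := by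
  classical
  obtain ⟨h1, h2, h3⟩ := hH
  refine ⟨fun S hS => Finset.mem_powerset.1 (Finset.mem_filter.1 hS).1, fun S hS T hT => ?_,
    fun S hS => ?_⟩
  · have := h2 _ (Finset.mem_filter.1 hS).2 _ (Finset.mem_filter.1 hT).2
    rw [← Finset.coe_inter, Finset.coe_nonempty] at this
    exact this
  · have h4 : (S : Set (Ideal (𝓞 K))) ⊆ P2 K := by rw [← coe_E]; exact Finset.coe_subset.2 hS
    rcases h3 _ h4 with h | h
    · exact Or.inl (Finset.mem_filter.2 ⟨Finset.mem_powerset.2 hS, h⟩)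
    · refine Or.inr (Finset.mem_filter.2 ⟨Finset.mem_powerset.2 Finset.sdiff_subset, ?_⟩)
      rw [Finset.coe_sdiff, coe_E]; exact h

open Pool.Agent.Helper3 in
/-- set version of a finite family -/
theorem MaxI_to {H : Finset (Finset (Ideal (𝓞 K)))} (hH : CF.MaxI (E K) H) :
    ∃ H' : Set (Set (Ideal (𝓞 K))), MaxInt K H' ∧ fin K H' = H := by
  classical
  refine ⟨(fun S : Finset (Ideal (𝓞 K)) => (S : Set (Ideal (𝓞 K)))) '' (H : Set (Finset (Ideal (𝓞 K)))),
    ⟨?_, ?_, ?_⟩, ?_⟩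
  · rintro _ ⟨S, hS, rfl⟩
    rw [← coe_E]
    exact Finset.coe_subset.2 (hH.sub S hS)
  · rintro _ ⟨S, hS, rfl⟩ _ ⟨T, hT, rfl⟩
    have := hH.inter S hS T hT
    rw [← Finset.coe_nonempty, Finset.coe_inter] at this
    exact this
  · intro S hS
    obtain ⟨S', rfl⟩ : ∃ S' : Finset (Ideal (𝓞 K)), (S' : Set (Ideal (𝓞 K))) = S :=
      ((P2_finite K).subset hS).exists_finset_coe
    rw [← coe_E] at hS ⊢
    rcases hH.full S' (Finset.coe_subset.1 hS) with h | h
    · exact Or.inl ⟨S', h, rfl⟩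
    · exact Or.inr ⟨E K \ S', h, by simp⟩
  · ext S
    simp only [fin, Finset.mem_filter, Finset.mem_powerset, Set.mem_image, Finset.mem_coe,
      Finset.coe_inj, exists_eq_right]
    exact ⟨fun h => h.2, fun h => ⟨hH.sub S h, h⟩⟩

open Pool.Agent.Helper3 in
theorem part1 (hK : (P2 K).Nonempty) :
    ∀ᶠ x : ℝ in atTop, ∀ A : Set (Ideal (𝓞 K)), IsExtremal K x A ↔
      ∃ H, MaxInt K H ∧ A = fam K H x ∧
        ∀ H', MaxInt K H' → (fam K H' x).ncard ≤ (fam K H x).ncard := by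
  classical
  have hne : (E K).Nonempty := by rw [← Finset.coe_nonempty, coe_E]; exact hK
  have h1 := tendsto_nat_floor_atTop (α := ℝ) |>.eventually (CF.classification (isE2 K) hne)
  filter_upwards [h1, eventually_ge_atTop 0] with x hx hx0 A
  by_cases hA : A ⊆ Theta K x
  · obtain ⟨A', rfl⟩ : ∃ A' : Finset (Ideal (𝓞 K)), (A' : Set (Ideal (𝓞 K))) = A := by
      rw [Theta_eq K hx0] at hA
      exact (Set.Finite.subset (Finset.finite_toSet _) hA).exists_finset_coe
    rw [extremal_iff K hx0, hx A']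
    constructor
    · rintro ⟨H, hH, h2, h3⟩
      obtain ⟨H', hH', rfl⟩ := MaxI_to K hH
      refine ⟨H', hH', by rw [fam_eq K hx0, h2], fun H'' hH'' => ?_⟩
      rw [fam_eq K hx0, fam_eq K hx0, Set.ncard_coe_finset, Set.ncard_coe_finset]
      exact h3 _ (fin_MaxI K hH'')
    · rintro ⟨H, hH, h2, h3⟩
      refine ⟨fin K H, fin_MaxI K hH, ?_, fun H' hH' => ?_⟩
      · rw [fam_eq K hx0] at h2
        exact Finset.coe_injective h2
      · obtain ⟨H'', hH'', rfl⟩ := MaxI_to K hH'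
        have := h3 H'' hH''
        rwa [fam_eq K hx0, fam_eq K hx0, Set.ncard_coe_finset, Set.ncard_coe_finset] at this
  · constructor
    · intro h; exact absurd h.1 hA
    · rintro ⟨H, _, rfl, _⟩
      exact absurd (fun I hI => hI.1) hA

open Pool.Agent.Helper3 in
theorem part2 (x : ℝ) (hx : 0 ≤ x) (H : Set (Set (Ideal (𝓞 K)))) (hH : MaxInt K H) :
    ((fam K H x).ncard : ℤ) = ∑ᶠ S ∈ H, ∑ j ∈ Finset.range ((P2 K).ncard - S.ncard + 1),
      (-1) ^ j * (((P2 K).ncard - S.ncard).choose j : ℤ) * Jc K (x / 2 ^ (S.ncard + j)) := by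
  classical
  rw [fam_eq K hx, Set.ncard_coe_finset, CF.fam_card_formula (isE2 K) (fin_MaxI K hH).sub]
  have h1 : H = (fun S : Finset (Ideal (𝓞 K)) => (S : Set (Ideal (𝓞 K)))) ''
      (fin K H : Set (Finset (Ideal (𝓞 K)))) := by
    ext S
    constructor
    · intro hS
      obtain ⟨S', rfl⟩ : ∃ S' : Finset (Ideal (𝓞 K)), (S' : Set (Ideal (𝓞 K))) = S :=
        ((P2_finite K).subset (hH.1 S hS)).exists_finset_coe
      refine ⟨S', Finset.mem_filter.2 ⟨Finset.mem_powerset.2 ?_, hS⟩, rfl⟩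
      rw [← Finset.coe_subset, coe_E]; exact hH.1 _ hS
    · rintro ⟨S', hS', rfl⟩
      exact (Finset.mem_filter.1 hS').2
  conv_rhs => rw [h1]
  rw [finsum_mem_image (fun a _ b _ h => Finset.coe_injective h), finsum_mem_coe_finset]
  refine Finset.sum_congr rfl fun S hS => ?_
  rw [Set.ncard_coe_finset, E_card]
  refine Finset.sum_congr rfl fun j _ => ?_
  have := Jc_div K hx (2 ^ (S.card + j))
  push_cast at this
  rw [this]

open Pool.Agent.Helper3 in
theorem part3 (h3 : (P2 K).ncard = 3) :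
    ∀ᶠ x : ℝ in atTop, ∀ A : Set (Ideal (𝓞 K)), IsExtremal K x A ↔
      (3 * Jc K (x / 4) ≤ Jc K (x / 2) + 2 * Jc K (x / 8) ∧
        ∃ η ∈ P2 K, A = {I ∈ Theta K x | η ∣ I}) ∨
      (Jc K (x / 2) + 2 * Jc K (x / 8) ≤ 3 * Jc K (x / 4) ∧
        A = {I ∈ Theta K x | 2 ≤ {p ∈ P2 K | p ∣ I}.ncard}) := by
  classical
  have hE3 : (E K).card = 3 := by rw [E_card]; exact h3
  have h1 := tendsto_nat_floor_atTop (α := ℝ) |>.eventually (CF.classification_three (isE2 K) hE3)
  filter_upwards [h1, eventually_ge_atTop 0] with x hx hx0 A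
  have e2 : Jc K (x / 2) = CF.J K (⌊x⌋₊ / 2) := by simpa using Jc_div K hx0 2
  have e4 : Jc K (x / 4) = CF.J K (⌊x⌋₊ / 4) := by simpa using Jc_div K hx0 4
  have e8 : Jc K (x / 8) = CF.J K (⌊x⌋₊ / 8) := by simpa using Jc_div K hx0 8
  have hstar : ∀ η ∈ E K, {I ∈ Theta K x | η ∣ I}
      = ↑(CF.fam (E K) ((E K).powerset.filter (fun S => η ∈ S)) ⌊x⌋₊) := by
    intro η hη
    rw [Theta_eq K hx0]
    ext I
    simp only [Set.mem_ofPred_eq, Finset.mem_coe, CF.fam, Finset.mem_filter, Finset.mem_powerset,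
      CF.mem_tr]
    exact ⟨fun h => ⟨h.1, CF.tr_sub _ _, hη, h.2⟩, fun h => ⟨h.1, h.2.2.2⟩⟩
  have hmaj : {I ∈ Theta K x | 2 ≤ {p ∈ P2 K | p ∣ I}.ncard}
      = ↑(CF.fam (E K) (CF.maj (E K)) ⌊x⌋₊) := by
    rw [Theta_eq K hx0]
    ext I
    simp only [Set.mem_ofPred_eq, Finset.mem_coe, CF.fam, Finset.mem_filter, CF.maj,
      Finset.mem_powerset]
    rw [← coe_tr, Set.ncard_coe_finset]
    exact ⟨fun h => ⟨h.1, CF.tr_sub _ _, h.2⟩, fun h => ⟨h.1, h.2.2⟩⟩
  rw [e2, e4, e8, hmaj]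
  by_cases hA : A ⊆ Theta K x
  · obtain ⟨A', rfl⟩ : ∃ A' : Finset (Ideal (𝓞 K)), (A' : Set (Ideal (𝓞 K))) = A := by
      rw [Theta_eq K hx0] at hA
      exact (Set.Finite.subset (Finset.finite_toSet _) hA).exists_finset_coe
    rw [extremal_iff K hx0, hx A', Finset.coe_inj]
    refine or_congr (and_congr_right fun _ => ?_) Iff.rfl
    constructor
    · rintro ⟨η, hη, h⟩
      refine ⟨η, ?_, ?_⟩
      · rw [← coe_E]; exact hη
      · rw [hstar η hη, h]
    · rintro ⟨η, hη, h⟩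
      rw [← coe_E] at hη
      refine ⟨η, hη, ?_⟩
      rw [hstar η hη] at h
      exact Finset.coe_injective h
  · constructor
    · intro h; exact absurd h.1 hA
    · rintro (⟨_, η, _, rfl⟩ | ⟨_, rfl⟩)
      · exact absurd (fun I hI => hI.1) hA
      · rw [Theta_eq K hx0] at hA
        exact absurd (Finset.coe_subset.2 (CF.fam_sub _ _ _)) hA

open Pool.Agent.Helper3 in
/-- real version of a statement for all large integers -/
theorem fam_nat (m : ℕ) (H : Set (Set (Ideal (𝓞 K)))) :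
    (fam K H (m : ℝ)).ncard = (CF.fam (E K) (fin K H) m).card := by
  rw [fam_eq K (Nat.cast_nonneg m), Nat.floor_natCast, Set.ncard_coe_finset]

open Pool.Agent.Helper3 in
theorem part6 : (∀ x₀ : ℝ, ∃ x : ℝ, x₀ ≤ x ∧ 3 * Jc K (x / 4) < Jc K (x / 2) + 2 * Jc K (x / 8)) ∧
    ∀ x₀ : ℝ, ∃ x : ℝ, x₀ ≤ x ∧ Jc K (x / 2) + 2 * Jc K (x / 8) < 3 * Jc K (x / 4) := by
  have h := SG.a_G0 K 4 (fun j => if j = 1 then 1 else if j = 2 then -3 else if j = 3 then 2 else 0)
    ⟨1, by norm_num, by norm_num⟩ (by simp [Finset.sum_range_succ])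
    (by simp [Finset.sum_range_succ]; norm_num)
  have e : ∀ m : ℕ, ∑ j ∈ Finset.range 4, (if j = 1 then (1 : ℤ) else if j = 2 then -3 else
      if j = 3 then 2 else 0) * (CF.J K (m / 2 ^ j) : ℤ) =
      (Jc K ((m : ℝ) / 2) : ℤ) + 2 * Jc K ((m : ℝ) / 8) - 3 * Jc K ((m : ℝ) / 4) := by
    intro m
    have e2 : Jc K ((m : ℝ) / 2) = CF.J K (m / 2) := by
      simpa using Jc_div K (Nat.cast_nonneg m) 2
    have e4 : Jc K ((m : ℝ) / 4) = CF.J K (m / 4) := by
      simpa using Jc_div K (Nat.cast_nonneg m) 4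
    have e8 : Jc K ((m : ℝ) / 8) = CF.J K (m / 8) := by
      simpa using Jc_div K (Nat.cast_nonneg m) 8
    rw [e2, e4, e8]
    simp [Finset.sum_range_succ]
    ring
  obtain ⟨h1, h2⟩ := h
  refine ⟨fun x₀ => ?_, fun x₀ => ?_⟩
  · obtain ⟨m, hm, h3⟩ := h1 ⌈x₀⌉₊
    refine ⟨m, (Nat.le_ceil x₀).trans (by exact_mod_cast hm), ?_⟩
    rw [e] at h3
    omega
  · obtain ⟨m, hm, h3⟩ := h2 ⌈x₀⌉₊
    refine ⟨m, (Nat.le_ceil x₀).trans (by exact_mod_cast hm), ?_⟩
    rw [e] at h3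
    omega


/-! ### profiles -/

variable {K} in
/-- number of members of size `j` -/
noncomputable def prof (H : Set (Set (Ideal (𝓞 K)))) (j : ℕ) : ℕ := {S ∈ H | S.ncard = j}.ncard

variable {K} in
/-- coefficients of the size of `fam K H x` -/
noncomputable def coef (H : Set (Set (Ideal (𝓞 K)))) (i : ℕ) : ℤ :=
  ∑ j ∈ Finset.range (i + 1),
    (-1) ^ (i - j) * (((P2 K).ncard - j).choose (i - j) : ℤ) * prof H j

section profiles

variable {K}

/-- the finite set of members -/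
noncomputable def hf (H : Set (Set (Ideal (𝓞 K)))) (hH : H ⊆ {S | S ⊆ P2 K}) :
    Finset (Set (Ideal (𝓞 K))) :=
  (((P2_finite K).finite_subsets.subset hH) : H.Finite).toFinset

theorem mem_hf {H : Set (Set (Ideal (𝓞 K)))} (hH : H ⊆ {S | S ⊆ P2 K}) (S : Set (Ideal (𝓞 K))) :
    S ∈ hf H hH ↔ S ∈ H := by simp [hf]

theorem prof_eq {H : Set (Set (Ideal (𝓞 K)))} (hH : H ⊆ {S | S ⊆ P2 K}) (j : ℕ) :
    prof H j = ((hf H hH).filter fun S => S.ncard = j).card := by
  unfold prof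
  rw [← Set.ncard_coe_finset]
  congr 1
  ext S
  simp [mem_hf]

theorem P2_ncard_le {S : Set (Ideal (𝓞 K))} (hS : S ⊆ P2 K) : S.ncard ≤ (P2 K).ncard :=
  Set.ncard_le_ncard hS (P2_finite K)

theorem sum_hf {R : Type*} [CommRing R] {H : Set (Set (Ideal (𝓞 K)))} (hH : H ⊆ {S | S ⊆ P2 K})
    (F : ℕ → R) :
    ∑ S ∈ hf H hH, F S.ncard = ∑ j ∈ Finset.range ((P2 K).ncard + 1), prof H j * F j := by
  rw [← Finset.sum_fiberwise_of_maps_to (g := fun S : Set (Ideal (𝓞 K)) => S.ncard)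
    (t := Finset.range ((P2 K).ncard + 1))]
  · refine Finset.sum_congr rfl fun j _ => ?_
    rw [Finset.sum_congr rfl (g := fun _ => F j)
      (fun S hS => by rw [(Finset.mem_filter.1 hS).2]), Finset.sum_const, nsmul_eq_mul,
      prof_eq hH]
  · intro S hS
    rw [mem_hf] at hS
    have := P2_ncard_le (hH hS)
    simp only [Finset.mem_range]
    omega

theorem inner {R : Type*} [CommRing R] (k j : ℕ) (hj : j ≤ k) (g : ℕ → R) :
    ∑ r ∈ Finset.range (k - j + 1), (-1 : R) ^ r * ((k - j).choose r : R) * g (j + r) =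
      ∑ i ∈ Finset.range (k + 1),
        if j ≤ i then (-1 : R) ^ (i - j) * ((k - j).choose (i - j) : R) * g i else 0 := by
  rw [← Finset.sum_filter]
  refine Finset.sum_bij' (fun r _ => j + r) (fun i _ => i - j) ?_ ?_ ?_ ?_ ?_
  · intro r hr
    simp only [Finset.mem_range, Finset.mem_filter] at hr ⊢
    omega
  · intro i hi
    simp only [Finset.mem_range, Finset.mem_filter] at hi ⊢
    omega
  · intro r hr
    simp
  · intro i hi
    simp only [Finset.mem_range, Finset.mem_filter] at hi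
    show j + (i - j) = i
    omega
  · intro r hr
    simp

/-- sums against the coefficients -/
theorem coef_sum {R : Type*} [CommRing R] {H : Set (Set (Ideal (𝓞 K)))} (hH : H ⊆ {S | S ⊆ P2 K})
    (g : ℕ → R) :
    ∑ i ∈ Finset.range ((P2 K).ncard + 1), (coef H i : R) * g i =
      ∑ S ∈ hf H hH, ∑ r ∈ Finset.range ((P2 K).ncard - S.ncard + 1),
        (-1 : R) ^ r * (((P2 K).ncard - S.ncard).choose r : R) * g (S.ncard + r) := by
  set k := (P2 K).ncard with hk
  rw [sum_hf hH (fun s => ∑ r ∈ Finset.range (k - s + 1),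
        (-1 : R) ^ r * ((k - s).choose r : R) * g (s + r)), ← hk]
  have e1 : ∀ j ∈ Finset.range (k + 1), (prof H j : R) * ∑ r ∈ Finset.range (k - j + 1),
        (-1 : R) ^ r * ((k - j).choose r : R) * g (j + r) =
      ∑ i ∈ Finset.range (k + 1), if j ≤ i then
        (-1 : R) ^ (i - j) * ((k - j).choose (i - j) : R) * prof H j * g i else 0 := by
    intro j hj
    rw [inner k j (by simpa [Nat.lt_succ_iff] using hj) g, Finset.mul_sum]
    refine Finset.sum_congr rfl fun i _ => ?_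
    split_ifs <;> ring
  rw [Finset.sum_congr rfl e1, Finset.sum_comm]
  refine Finset.sum_congr rfl fun i hi => ?_
  rw [← Finset.sum_filter, coef]
  push_cast
  rw [Finset.sum_mul, ← hk]
  refine Finset.sum_congr ?_ fun j _ => rfl
  ext j
  simp only [Finset.mem_range, Finset.mem_filter] at hi ⊢
  omega

theorem alt_sum (m : ℕ) (z : ℝ) :
    ∑ r ∈ Finset.range (m + 1), (-1 : ℝ) ^ r * (m.choose r : ℝ) * z ^ r = (1 - z) ^ m := by
  have := add_pow (-z) 1 m
  rw [show (1 - z) = -z + 1 by ring, this]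
  refine Finset.sum_congr rfl fun r _ => ?_
  rw [one_pow, neg_pow]
  ring

theorem gen {H : Set (Set (Ideal (𝓞 K)))} (hH : H ⊆ {S | S ⊆ P2 K}) (z : ℝ) :
    ∑ i ∈ Finset.range ((P2 K).ncard + 1), (coef H i : ℝ) * z ^ i =
      ∑ S ∈ hf H hH, z ^ S.ncard * (1 - z) ^ ((P2 K).ncard - S.ncard) := by
  rw [coef_sum hH]
  refine Finset.sum_congr rfl fun S _ => ?_
  rw [← alt_sum, Finset.mul_sum]
  refine Finset.sum_congr rfl fun r _ => ?_
  rw [pow_add]
  ring

theorem sub_of {H : Set (Set (Ideal (𝓞 K)))} (hH : MaxInt K H) : H ⊆ {S | S ⊆ P2 K} := hH.1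

theorem empty_notMem {H : Set (Set (Ideal (𝓞 K)))} (hH : MaxInt K H) :
    (∅ : Set (Ideal (𝓞 K))) ∉ H := fun h => by
  obtain ⟨p, hp, -⟩ := hH.2.1 _ h _ h
  exact hp

theorem full_mem {H : Set (Set (Ideal (𝓞 K)))} (hH : MaxInt K H) : P2 K ∈ H := by
  rcases hH.2.2 (P2 K) subset_rfl with h | h
  · exact h
  · rw [Set.sdiff_self] at h
    exact absurd h (empty_notMem hH)

theorem sum_one {H : Set (Set (Ideal (𝓞 K)))} (hH : MaxInt K H) :
    ∑ i ∈ Finset.range ((P2 K).ncard + 1), coef H i = 1 := by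
  have h := gen (sub_of hH) 1
  simp only [one_pow, mul_one, sub_self, one_mul] at h
  have h2 : (∑ i ∈ Finset.range ((P2 K).ncard + 1), (coef H i : ℝ)) = 1 := by
    rw [h, Finset.sum_eq_single (P2 K)]
    · simp
    · intro S hS hne
      rw [mem_hf] at hS
      have hlt : S.ncard < (P2 K).ncard :=
        Set.ncard_lt_ncard (Set.ssubset_iff_subset_ne.2 ⟨hH.1 S hS, hne⟩) (P2_finite K)
      rw [zero_pow (by omega)]
    · intro h
      exact absurd ((mem_hf (sub_of hH) _).2 (full_mem hH)) h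
  exact_mod_cast h2

/-- exactly one of two complementary sets is a member -/
theorem prof_compl {H : Set (Set (Ideal (𝓞 K)))} (hH : MaxInt K H) {j : ℕ} (hj : j ≤ (P2 K).ncard) :
    prof H j + prof H ((P2 K).ncard - j) = (P2 K).ncard.choose j := by
  classical
  have hfin := P2_finite K
  have hnc : ∀ S ⊆ P2 K, (P2 K \ S).ncard = (P2 K).ncard - S.ncard := fun S hS =>
    Set.ncard_sdiff hS (hfin.subset hS)
  have hc : {S | S ⊆ P2 K ∧ S ∉ H} ⊆ {S | S ⊆ P2 K} := fun S hS => hS.1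
  have hI : ((hf H (sub_of hH)).filter fun S => S.ncard = (P2 K).ncard - j).image
      (fun S => P2 K \ S) = (hf {S | S ⊆ P2 K ∧ S ∉ H} hc).filter fun S => S.ncard = j := by
    ext S
    rw [Finset.mem_filter, mem_hf hc, Finset.mem_image]
    constructor
    · rintro ⟨T, hT', rfl⟩
      obtain ⟨hT, hcT⟩ := Finset.mem_filter.1 hT'
      rw [mem_hf] at hT
      refine ⟨⟨Set.sdiff_subset, fun h => ?_⟩, ?_⟩
      · obtain ⟨p, hp1, hp2⟩ := hH.2.1 _ h _ hT
        exact hp1.2 hp2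
      · rw [hnc T (hH.1 T hT), hcT]
        omega
    · rintro ⟨⟨hS, hn⟩, hcS⟩
      refine ⟨P2 K \ S, Finset.mem_filter.2 ⟨(mem_hf _ _).2 ((hH.2.2 S hS).resolve_left hn), ?_⟩,
        Set.sdiff_sdiff_cancel_left hS⟩
      rw [hnc S hS, hcS]
  have hinj : Set.InjOn (fun S => P2 K \ S)
      (((hf H (sub_of hH)).filter fun S => S.ncard = (P2 K).ncard - j) :
        Set (Set (Ideal (𝓞 K)))) := by
    intro S hS T hT h
    simp only [Finset.coe_filter, Set.mem_ofPred_eq, mem_hf] at hS hT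
    have h' : P2 K \ (P2 K \ S) = P2 K \ (P2 K \ T) := by
      simpa using congrArg (fun X => P2 K \ X) h
    rwa [Set.sdiff_sdiff_cancel_left (hH.1 S hS.1), Set.sdiff_sdiff_cancel_left (hH.1 T hT.1)] at h'
  have h1 : prof H ((P2 K).ncard - j) = prof {S | S ⊆ P2 K ∧ S ∉ H} j := by
    rw [prof_eq (sub_of hH), prof_eq hc, ← hI,
      Finset.card_image_of_injOn hinj]
  have h2 : prof H j + prof {S | S ⊆ P2 K ∧ S ∉ H} j = {S : Set (Ideal (𝓞 K)) | S ⊆ P2 K ∧ S.ncard = j}.ncard := by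
    unfold prof
    rw [← Set.ncard_union_eq ?_ (hfin.finite_subsets.subset fun S hS => hH.1 S hS.1)
      (hfin.finite_subsets.subset fun S hS => hS.1.1)]
    · congr 1
      ext S
      simp only [Set.mem_union, Set.mem_ofPred_eq]
      constructor
      · rintro (⟨h, h'⟩ | ⟨⟨h, _⟩, h'⟩)
        · exact ⟨hH.1 S h, h'⟩
        · exact ⟨h, h'⟩
      · rintro ⟨h, h'⟩
        by_cases hS : S ∈ H
        · exact Or.inl ⟨hS, h'⟩
        · exact Or.inr ⟨⟨h, hS⟩, h'⟩
    · rw [Set.disjoint_left]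
      rintro S ⟨h, _⟩ ⟨⟨_, h'⟩, _⟩
      exact h' h
  have h3 : {S : Set (Ideal (𝓞 K)) | S ⊆ P2 K ∧ S.ncard = j} =
      (fun S : Finset (Ideal (𝓞 K)) => (S : Set (Ideal (𝓞 K)))) ''
        (Finset.powersetCard j (E K) : Set (Finset (Ideal (𝓞 K)))) := by
    ext S
    simp only [Set.mem_ofPred_eq, Set.mem_image, Finset.mem_coe, Finset.mem_powersetCard]
    constructor
    · rintro ⟨h, h'⟩
      obtain ⟨S', rfl⟩ := (hfin.subset h).exists_finset_coe
      refine ⟨S', ⟨?_, ?_⟩, rfl⟩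
      · rw [← Finset.coe_subset, coe_E]
        exact h
      · rw [← h', Set.ncard_coe_finset]
    · rintro ⟨S', ⟨h, h'⟩, rfl⟩
      refine ⟨?_, ?_⟩
      · rw [← coe_E]
        exact Finset.coe_subset.2 h
      · rw [Set.ncard_coe_finset, h']
  rw [h1, h2, h3, Set.ncard_image_of_injective _ Finset.coe_injective, Set.ncard_coe_finset,
    Finset.card_powersetCard, E_card]

theorem sum_half {H : Set (Set (Ideal (𝓞 K)))} (hH : MaxInt K H) :
    2 * ∑ i ∈ Finset.range ((P2 K).ncard + 1), (coef H i : ℝ) / 2 ^ i = 1 := by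
  have h := gen (sub_of hH) (1 / 2)
  have e : ∀ i ∈ Finset.range ((P2 K).ncard + 1),
      (coef H i : ℝ) / 2 ^ i = (coef H i : ℝ) * (1 / 2) ^ i := by
    intro i _
    rw [one_div, inv_pow, div_eq_mul_inv]
  have hcard : 2 * (hf H (sub_of hH)).card = 2 ^ (P2 K).ncard := by
    have h1 : (hf H (sub_of hH)).card = ∑ j ∈ Finset.range ((P2 K).ncard + 1), prof H j := by
      have := sum_hf (R := ℤ) (sub_of hH) (fun _ => 1)
      simp only [Finset.sum_const, nsmul_eq_mul, mul_one] at this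
      exact_mod_cast this
    have h2 : ∑ j ∈ Finset.range ((P2 K).ncard + 1), prof H j =
        ∑ j ∈ Finset.range ((P2 K).ncard + 1), prof H ((P2 K).ncard - j) := by
      rw [← Finset.sum_range_reflect]
      exact Finset.sum_congr rfl fun j _ => by simp
    rw [two_mul]
    nth_rewrite 2 [h1]
    rw [h2, h1, ← Finset.sum_add_distrib, Finset.sum_congr rfl
      (g := fun j => (P2 K).ncard.choose j)
      (fun j hj => prof_compl hH (by simpa [Nat.lt_succ_iff] using hj)), Nat.sum_range_choose]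
  rw [Finset.sum_congr rfl e, h]
  have e2 : ∀ S ∈ hf H (sub_of hH), (1 / 2 : ℝ) ^ S.ncard * (1 - 1 / 2) ^ ((P2 K).ncard - S.ncard)
      = (1 / 2) ^ (P2 K).ncard := by
    intro S hS
    rw [mem_hf] at hS
    rw [show (1 - 1 / 2 : ℝ) = 1 / 2 by norm_num, ← pow_add]
    congr 1
    have := P2_ncard_le (hH.1 S hS)
    omega
  rw [Finset.sum_congr rfl e2, Finset.sum_const, nsmul_eq_mul, ← mul_assoc]
  have hc : (2 : ℝ) * ((hf H (sub_of hH)).card : ℝ) = 2 ^ (P2 K).ncard := by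
    exact_mod_cast hcard
  rw [hc, one_div, inv_pow, mul_inv_cancel₀ (by positivity)]

theorem size {H : Set (Set (Ideal (𝓞 K)))} (hH : MaxInt K H) {x : ℝ} (hx : 0 ≤ x) :
    ((fam K H x).ncard : ℤ) =
      ∑ i ∈ Finset.range ((P2 K).ncard + 1), coef H i * (Jc K (x / 2 ^ i) : ℤ) := by
  have h := coef_sum (R := ℤ) (sub_of hH) (fun i => (Jc K (x / 2 ^ i) : ℤ))
  simp only [Int.cast_id] at h
  rw [h, part2 K x hx H hH, ← finsum_mem_finset_eq_sum]
  refine finsum_mem_congr ?_ fun _ _ => rfl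
  ext S
  simp [mem_hf]

theorem coef_diff {H H' : Set (Set (Ideal (𝓞 K)))} (hH : MaxInt K H) (hH' : MaxInt K H')
    (hp : ∃ j, prof H j ≠ prof H' j) : ∃ i, i < (P2 K).ncard + 1 ∧ coef H i - coef H' i ≠ 0 := by
  classical
  have hz : ∀ {H : Set (Set (Ideal (𝓞 K)))}, MaxInt K H → ∀ j, (P2 K).ncard < j → prof H j = 0 := by
    intro H hH j hj
    rw [prof_eq (sub_of hH), Finset.card_eq_zero, Finset.filter_eq_empty_iff]
    intro S hS h
    rw [mem_hf] at hS
    have := P2_ncard_le (hH.1 S hS)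
    omega
  refine ⟨Nat.find hp, ?_, ?_⟩
  · by_contra hlt
    exact Nat.find_spec hp (by rw [hz hH _ (by omega), hz hH' _ (by omega)])
  · rw [sub_ne_zero]
    set i := Nat.find hp with hi
    have hmin : ∀ j < i, prof H j = prof H' j := fun j hj => by
      have := Nat.find_min hp hj
      push Not at this
      exact this
    unfold coef
    rw [Finset.sum_range_succ, Finset.sum_range_succ]
    have : ∑ j ∈ Finset.range i, (-1 : ℤ) ^ (i - j) * (((P2 K).ncard - j).choose (i - j) : ℤ) *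
        (prof H j : ℤ) = ∑ j ∈ Finset.range i,
        (-1 : ℤ) ^ (i - j) * (((P2 K).ncard - j).choose (i - j) : ℤ) * (prof H' j : ℤ) :=
      Finset.sum_congr rfl fun j hj => by rw [hmin j (Finset.mem_range.1 hj)]
    rw [this]
    intro h
    simp only [Nat.sub_self, pow_zero, Nat.choose_zero_right, Nat.cast_one, mul_one, one_mul,
      add_right_inj, Nat.cast_inj] at h
    exact Nat.find_spec hp h

theorem fam_neg {x : ℝ} (hx : x < 0) (H : Set (Set (Ideal (𝓞 K)))) : fam K H x = ∅ := by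
  rw [Set.eq_empty_iff_forall_notMem]
  rintro I ⟨⟨-, h⟩, -⟩
  have : (0 : ℝ) ≤ Ideal.absNorm I := Nat.cast_nonneg _
  linarith

/-- equal profiles give equal sizes -/
theorem part4a {H H' : Set (Set (Ideal (𝓞 K)))} (hH : MaxInt K H) (hH' : MaxInt K H')
    (hp : ∀ j, prof H j = prof H' j) (x : ℝ) : (fam K H x).ncard = (fam K H' x).ncard := by
  rcases le_or_gt 0 x with hx | hx
  · have h1 := size hH hx
    rw [show coef H = coef H' by funext i; simp only [coef, hp], ← size hH' hx] at h1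
    exact_mod_cast h1
  · rw [fam_neg hx, fam_neg hx]

open Pool.Agent.Helper3 in
/-- different profiles: each is strictly larger for arbitrarily large `x` -/
theorem part4b {H H' : Set (Set (Ideal (𝓞 K)))} (hH : MaxInt K H) (hH' : MaxInt K H')
    (hp : ∃ j, prof H j ≠ prof H' j) (x₀ : ℝ) :
    ∃ x : ℝ, x₀ ≤ x ∧ (fam K H' x).ncard < (fam K H x).ncard := by
  have h1 : ∑ i ∈ Finset.range ((P2 K).ncard + 1), (coef H i - coef H' i) = 0 := by
    rw [Finset.sum_sub_distrib, sum_one hH, sum_one hH', sub_self]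
  have h2 : ∑ i ∈ Finset.range ((P2 K).ncard + 1), (((coef H i - coef H' i : ℤ)) : ℝ) / 2 ^ i = 0 := by
    have e : ∀ i ∈ Finset.range ((P2 K).ncard + 1), (((coef H i - coef H' i : ℤ)) : ℝ) / 2 ^ i =
        (coef H i : ℝ) / 2 ^ i - (coef H' i : ℝ) / 2 ^ i := fun i _ => by push_cast; ring
    rw [Finset.sum_congr rfl e, Finset.sum_sub_distrib]
    have := sum_half hH
    have := sum_half hH'
    linarith
  obtain ⟨m, hm, h3⟩ := (SG.a_G0 K ((P2 K).ncard + 1) (fun i => coef H i - coef H' i)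
    (coef_diff hH hH' hp) h1 h2).1 ⌈x₀⌉₊
  refine ⟨m, (Nat.le_ceil x₀).trans (by exact_mod_cast hm), ?_⟩
  have hm0 : (0 : ℝ) ≤ m := Nat.cast_nonneg m
  have e : ∀ i, Jc K ((m : ℝ) / 2 ^ i) = CF.J K (m / 2 ^ i) := fun i => by
    simpa using Jc_div K hm0 (2 ^ i)
  have h4 := size hH hm0
  have h5 := size hH' hm0
  simp only [e] at h4 h5
  have h6 : ((fam K H (m : ℝ)).ncard : ℤ) - ((fam K H' (m : ℝ)).ncard : ℤ) =
      ∑ j ∈ Finset.range ((P2 K).ncard + 1), (coef H j - coef H' j) * (CF.J K (m / 2 ^ j) : ℤ) := by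
    rw [h4, h5, ← Finset.sum_sub_distrib]
    exact Finset.sum_congr rfl fun i _ => by ring
  rw [← h6] at h3
  omega

/-! ### families with and without singletons -/

/-- the star of a prime -/
def star (η : Ideal (𝓞 K)) : Set (Set (Ideal (𝓞 K))) := {S | S ⊆ P2 K ∧ η ∈ S}

theorem star_maxInt {η : Ideal (𝓞 K)} (hη : η ∈ P2 K) : MaxInt K (star η) := by
  refine ⟨fun S hS => hS.1, fun S hS T hT => ⟨η, hS.2, hT.2⟩, fun S hS => ?_⟩
  by_cases h : η ∈ S
  · exact Or.inl ⟨hS, h⟩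
  · exact Or.inr ⟨Set.sdiff_subset, hη, h⟩

theorem star_fam {η : Ideal (𝓞 K)} (hη : η ∈ P2 K) (x : ℝ) :
    fam K (star η) x = {I ∈ Theta K x | η ∣ I} := by
  ext I
  constructor
  · rintro ⟨h1, -, h2⟩
    exact ⟨h1, h2.2⟩
  · rintro ⟨h1, h2⟩
    exact ⟨h1, fun p hp => hp.1, hη, h2⟩

theorem eq_star {H : Set (Set (Ideal (𝓞 K)))} (hH : MaxInt K H) {η : Ideal (𝓞 K)} (h : {η} ∈ H) :
    η ∈ P2 K ∧ H = star η := by
  refine ⟨hH.1 _ h rfl, ?_⟩
  ext S
  constructor
  · intro hS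
    obtain ⟨p, hp1, hp2⟩ := hH.2.1 _ hS _ h
    rw [Set.mem_singleton_iff] at hp2
    exact ⟨hH.1 S hS, hp2 ▸ hp1⟩
  · rintro ⟨h1, h2⟩
    refine (hH.2.2 S h1).resolve_right fun h3 => ?_
    obtain ⟨p, hp1, hp2⟩ := hH.2.1 _ h3 _ h
    rw [Set.mem_singleton_iff] at hp2
    exact hp1.2 (hp2 ▸ h2)

/-- at least two of the primes in `B` -/
def maj (B : Set (Ideal (𝓞 K))) : Set (Set (Ideal (𝓞 K))) := {S | S ⊆ P2 K ∧ 2 ≤ (S ∩ B).ncard}

theorem maj_maxInt {B : Set (Ideal (𝓞 K))} (hB : B ⊆ P2 K) (h3 : B.ncard = 3) :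
    MaxInt K (maj B) := by
  have hBf : B.Finite := (P2_finite K).subset hB
  refine ⟨fun S hS => hS.1, fun S hS T hT => ?_, fun S hS => ?_⟩
  · by_contra hcon
    rw [Set.not_nonempty_iff_eq_empty] at hcon
    have hdisj : Disjoint (S ∩ B) (T ∩ B) := by
      rw [Set.disjoint_iff_inter_eq_empty]
      ext p
      simp only [Set.mem_inter_iff, Set.mem_empty_iff_false, iff_false, not_and]
      rintro ⟨h1, h2⟩ h3
      exact absurd (show p ∈ S ∩ T from ⟨h1, h3⟩) (by rw [hcon]; exact fun h => h)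
    have h1 : ((S ∩ B) ∪ (T ∩ B)).ncard ≤ B.ncard :=
      Set.ncard_le_ncard (Set.union_subset Set.inter_subset_right Set.inter_subset_right) hBf
    rw [Set.ncard_union_eq hdisj (hBf.subset Set.inter_subset_right)
      (hBf.subset Set.inter_subset_right)] at h1
    have := hS.2
    have := hT.2
    omega
  · by_cases h : 2 ≤ (S ∩ B).ncard
    · exact Or.inl ⟨hS, h⟩
    · refine Or.inr ⟨Set.sdiff_subset, ?_⟩
      have e : (P2 K \ S) ∩ B = B \ (S ∩ B) := by
        ext p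
        simp only [Set.mem_inter_iff, Set.mem_sdiff]
        constructor
        · rintro ⟨⟨_, h1⟩, h2⟩
          exact ⟨h2, fun h => h1 h.1⟩
        · rintro ⟨h1, h2⟩
          exact ⟨⟨hB h1, fun h => h2 ⟨h, h1⟩⟩, h1⟩
      rw [e, Set.ncard_sdiff Set.inter_subset_right (hBf.subset Set.inter_subset_right)]
      omega

theorem maj_no_singleton (B : Set (Ideal (𝓞 K))) (η : Ideal (𝓞 K)) :
    ({η} : Set (Ideal (𝓞 K))) ∉ maj B := by
  rintro ⟨-, h⟩
  have : (({η} : Set (Ideal (𝓞 K))) ∩ B).ncard ≤ ({η} : Set (Ideal (𝓞 K))).ncard :=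
    Set.ncard_le_ncard Set.inter_subset_left (Set.finite_singleton η)
  rw [Set.ncard_singleton] at this
  omega

theorem prof_zero {H : Set (Set (Ideal (𝓞 K)))} (hH : MaxInt K H) : prof H 0 = 0 := by
  unfold prof
  have : {S ∈ H | S.ncard = 0} = ∅ := by
    ext S
    simp only [Set.mem_ofPred_eq, Set.mem_empty_iff_false, iff_false, not_and]
    intro hS h1
    rw [Set.ncard_eq_zero ((P2_finite K).subset (hH.1 S hS))] at h1
    subst h1
    exact empty_notMem hH hS
  rw [this, Set.ncard_empty]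

theorem prof_one {H : Set (Set (Ideal (𝓞 K)))} (h : ∀ η, ({η} : Set (Ideal (𝓞 K))) ∉ H) :
    prof H 1 = 0 := by
  unfold prof
  have : {S ∈ H | S.ncard = 1} = ∅ := by
    ext S
    simp only [Set.mem_ofPred_eq, Set.mem_empty_iff_false, iff_false, not_and]
    intro hS h1
    obtain ⟨η, rfl⟩ := Set.ncard_eq_one.1 h1
    exact h η hS
  rw [this, Set.ncard_empty]

open Pool.Agent.Helper3 in
theorem star_size {η : Ideal (𝓞 K)} (hη : η ∈ P2 K) {x : ℝ} (hx : 0 ≤ x) :
    (fam K (star η) x).ncard = Jc K (x / 2) := by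
  classical
  have hη' : η ∈ E K := by rw [← Finset.mem_coe, coe_E]; exact hη
  have e2 : Jc K (x / 2) = CF.J K (⌊x⌋₊ / 2) := by simpa using Jc_div K hx 2
  rw [fam_eq K hx, Set.ncard_coe_finset, e2, ← CF.star_card (isE2 K) hη' ⌊x⌋₊]
  congr 2
  ext S
  simp only [fin, Finset.mem_filter, Finset.mem_powerset, star, Set.mem_ofPred_eq, Finset.mem_coe]
  refine and_congr_right fun hS => ?_
  rw [← coe_E]
  exact ⟨fun h => h.2, fun h => ⟨Finset.coe_subset.2 hS, h⟩⟩

theorem nosing_size (hk : (P2 K).ncard = 3 ∨ (P2 K).ncard = 4) {H : Set (Set (Ideal (𝓞 K)))}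
    (hH : MaxInt K H) (h : ∀ η, ({η} : Set (Ideal (𝓞 K))) ∉ H) {x : ℝ} (hx : 0 ≤ x) :
    ((fam K H x).ncard : ℤ) = 3 * Jc K (x / 4) - 2 * Jc K (x / 8) := by
  have p0 := prof_zero hH
  have p1 := prof_one h
  rw [size hH hx]
  rcases hk with hk | hk
  · have q0 := prof_compl hH (j := 0) (by omega)
    have q1 := prof_compl hH (j := 1) (by omega)
    rw [hk] at q0 q1 ⊢
    norm_num [p0, p1] at q0 q1
    have c0 : coef H 0 = 0 := by simp [coef, p0]
    have c1 : coef H 1 = 0 := by simp [coef, p0, p1, Finset.sum_range_succ]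
    have c2 : coef H 2 = 3 := by simp [coef, p0, p1, q1, Finset.sum_range_succ]
    have c3 : coef H 3 = -2 := by
      simp [coef, p0, p1, q0, q1, Finset.sum_range_succ, hk]
    simp only [Finset.sum_range_succ, Finset.sum_range_zero, c0, c1, c2, c3]
    norm_num
    ring
  · have q0 := prof_compl hH (j := 0) (by omega)
    have q1 := prof_compl hH (j := 1) (by omega)
    have q2 := prof_compl hH (j := 2) (by omega)
    rw [hk] at q0 q1 q2 ⊢
    norm_num [p0, p1, Nat.choose] at q0 q1 q2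
    have q2' : prof H 2 = 3 := by omega
    have c0 : coef H 0 = 0 := by simp [coef, p0]
    have c1 : coef H 1 = 0 := by simp [coef, p0, p1, Finset.sum_range_succ]
    have c2 : coef H 2 = 3 := by simp [coef, p0, p1, q2', Finset.sum_range_succ]
    have c3 : coef H 3 = -2 := by
      simp [coef, p0, p1, q1, q2', Finset.sum_range_succ, hk]
    have c4 : coef H 4 = 0 := by
      simp [coef, p0, p1, q0, q1, q2', Finset.sum_range_succ, hk]
    simp only [Finset.sum_range_succ, Finset.sum_range_zero, c0, c1, c2, c3, c4]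
    norm_num
    ring

/-- three or four primes of norm `2` -/
theorem part3' (hk : (P2 K).ncard = 3 ∨ (P2 K).ncard = 4) :
    ∀ᶠ x : ℝ in atTop, ∀ A : Set (Ideal (𝓞 K)), IsExtremal K x A ↔
      (3 * Jc K (x / 4) ≤ Jc K (x / 2) + 2 * Jc K (x / 8) ∧
        ∃ η ∈ P2 K, A = {I ∈ Theta K x | η ∣ I}) ∨
      (Jc K (x / 2) + 2 * Jc K (x / 8) ≤ 3 * Jc K (x / 4) ∧
        ∃ H, MaxInt K H ∧ (∀ η, {η} ∉ H) ∧ A = fam K H x) := by
  have hne : (P2 K).Nonempty := Set.nonempty_of_ncard_ne_zero (by omega)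
  obtain ⟨B, hB, hB3⟩ := Set.exists_subset_card_eq (s := P2 K) (n := 3) (by omega)
  filter_upwards [part1 K hne, eventually_ge_atTop 0] with x hx hx0 A
  rw [hx A]
  have key : ∀ H, MaxInt K H → (∃ η ∈ P2 K, H = star η ∧ (fam K H x).ncard = Jc K (x / 2)) ∨
      ((∀ η, {η} ∉ H) ∧ ((fam K H x).ncard : ℤ) = 3 * Jc K (x / 4) - 2 * Jc K (x / 8)) := by
    intro H hH
    by_cases h : ∃ η, ({η} : Set (Ideal (𝓞 K))) ∈ H
    · obtain ⟨η, hη⟩ := h
      obtain ⟨h1, h2⟩ := eq_star hH hη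
      exact Or.inl ⟨η, h1, h2, by rw [h2]; exact star_size h1 hx0⟩
    · push Not at h
      exact Or.inr ⟨h, nosing_size hk hH h hx0⟩
  obtain ⟨η₀, hη₀⟩ := hne
  have hs := star_size hη₀ hx0
  have hm := nosing_size hk (maj_maxInt hB hB3) (maj_no_singleton B) hx0
  constructor
  · rintro ⟨H, hH, rfl, hmax⟩
    rcases key H hH with ⟨η, hη, rfl, h2⟩ | ⟨h1, h2⟩
    · refine Or.inl ⟨?_, η, hη, star_fam hη x⟩
      have := hmax _ (maj_maxInt hB hB3)
      omega
    · refine Or.inr ⟨?_, H, hH, h1, rfl⟩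
      have := hmax _ (star_maxInt hη₀)
      omega
  · rintro (⟨h1, η, hη, rfl⟩ | ⟨h1, H, hH, h2, rfl⟩)
    · refine ⟨star η, star_maxInt hη, (star_fam hη x).symm, fun H' hH' => ?_⟩
      have h3 := star_size hη hx0
      rcases key H' hH' with ⟨_, _, _, h4⟩ | ⟨_, h4⟩ <;> omega
    · refine ⟨H, hH, rfl, fun H' hH' => ?_⟩
      have h3 := nosing_size hk hH h2 hx0
      rcases key H' hH' with ⟨_, _, _, h4⟩ | ⟨_, h4⟩ <;> omega

/-- every family has a competitor with another profile -/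
theorem competitor (hK : 3 ≤ (P2 K).ncard) {H : Set (Set (Ideal (𝓞 K)))} (hH : MaxInt K H) :
    ∃ H', MaxInt K H' ∧ ∃ j, prof H' j ≠ prof H j := by
  have hne : (P2 K).Nonempty := Set.nonempty_of_ncard_ne_zero (by omega)
  have hpos : ∀ {G : Set (Set (Ideal (𝓞 K)))}, MaxInt K G → ∀ η, ({η} : Set (Ideal (𝓞 K))) ∈ G →
      prof G 1 ≠ 0 := by
    intro G hG η hη
    have hf : {S ∈ G | S.ncard = 1}.Finite := by
      refine (P2_finite K).finite_subsets.subset ?_
      rintro S ⟨hS, -⟩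
      exact hG.1 S hS
    unfold prof
    exact ((Set.ncard_pos hf).2 ⟨{η}, hη, Set.ncard_singleton η⟩).ne'
  by_cases h : ∃ η, ({η} : Set (Ideal (𝓞 K))) ∈ H
  · obtain ⟨η, hη⟩ := h
    obtain ⟨B, hB, hB3⟩ := Set.exists_subset_card_eq hK
    refine ⟨maj B, maj_maxInt hB hB3, 1, ?_⟩
    rw [prof_one (maj_no_singleton B)]
    exact (hpos hH η hη).symm
  · push Not at h
    obtain ⟨η, hη⟩ := hne
    refine ⟨star η, star_maxInt hη, 1, ?_⟩
    rw [prof_one h]
    exact hpos (star_maxInt hη) η ⟨Set.singleton_subset_iff.2 hη, rfl⟩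

theorem part5 (hK : 3 ≤ (P2 K).ncard) {H : Set (Set (Ideal (𝓞 K)))} (hH : MaxInt K H) (x₀ : ℝ) :
    ∃ x : ℝ, x₀ ≤ x ∧ ¬ IsExtremal K x (fam K H x) := by
  obtain ⟨H', hH', hp⟩ := competitor hK hH
  obtain ⟨x, hx, h⟩ := part4b hH' hH hp x₀
  refine ⟨x, hx, fun he => ?_⟩
  have hcf : CoprimeFree (fam K H' x) := by
    rintro I ⟨-, hI⟩ J ⟨-, hJ⟩ -
    obtain ⟨p, hp1, hp2⟩ := hH'.2.1 _ hI _ hJ
    exact ⟨p, hp1.1.1, hp1.2, hp2.2⟩
  exact absurd (he.2.2 _ (fun _ h => h.1) hcf) (not_le.2 h)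

end profiles

/-- **Theorem.** Let `K` have `k ≥ 3` prime ideals of norm `2`. (1) For all large `x` the extremal
coprime-free subsets of `Θ(x)` are exactly the largest ones among the sets `fam K H x`, `H` a maximal
intersecting family of sets of prime ideals of norm `2`; (2) the sizes of these sets are given by an
explicit combination of the numbers `J(x / 2 ^ i)`; (3) two families with the same profile (the same
numbers of members of each size) have the same size for all `x`, and of two families with different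
profiles each is strictly better than the other for arbitrarily large `x`; (4) no family is the best one
for all large `x`; (5) for `k = 3` the extremal sets are the three sets of multiples of one of the primes
when `J(x/2) - 3 J(x/4) + 2 J(x/8) > 0`, the set of ideals divisible by at least two of them when it is
`< 0`, and all four sets when it is `0`; (6) for `k = 4` the same with the sets `fam K H x`, `H` without
singletons, in place of the second set; (7) both signs occur for arbitrarily large `x`. -/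
theorem result (hK : 3 ≤ (P2 K).ncard) :
    (∀ᶠ x : ℝ in atTop, ∀ A : Set (Ideal (𝓞 K)), IsExtremal K x A ↔
      ∃ H, MaxInt K H ∧ A = fam K H x ∧
        ∀ H', MaxInt K H' → (fam K H' x).ncard ≤ (fam K H x).ncard) ∧
    (∀ x : ℝ, 0 ≤ x → ∀ H, MaxInt K H → ((fam K H x).ncard : ℤ) =
      ∑ᶠ S ∈ H, ∑ j ∈ Finset.range ((P2 K).ncard - S.ncard + 1),
        (-1) ^ j * (((P2 K).ncard - S.ncard).choose j : ℤ) * Jc K (x / 2 ^ (S.ncard + j))) ∧
    (∀ H H', MaxInt K H → MaxInt K H' →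
      ((∀ j, {S ∈ H | S.ncard = j}.ncard = {S ∈ H' | S.ncard = j}.ncard) →
        ∀ x : ℝ, (fam K H x).ncard = (fam K H' x).ncard) ∧
      ((∃ j, {S ∈ H | S.ncard = j}.ncard ≠ {S ∈ H' | S.ncard = j}.ncard) →
        (∀ x₀ : ℝ, ∃ x : ℝ, x₀ ≤ x ∧ (fam K H' x).ncard < (fam K H x).ncard) ∧
        ∀ x₀ : ℝ, ∃ x : ℝ, x₀ ≤ x ∧ (fam K H x).ncard < (fam K H' x).ncard)) ∧
    (∀ H, MaxInt K H → ∀ x₀ : ℝ, ∃ x : ℝ, x₀ ≤ x ∧ ¬ IsExtremal K x (fam K H x)) ∧
    ((P2 K).ncard = 3 → ∀ᶠ x : ℝ in atTop, ∀ A : Set (Ideal (𝓞 K)), IsExtremal K x A ↔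
      (3 * Jc K (x / 4) ≤ Jc K (x / 2) + 2 * Jc K (x / 8) ∧
        ∃ η ∈ P2 K, A = {I ∈ Theta K x | η ∣ I}) ∨
      (Jc K (x / 2) + 2 * Jc K (x / 8) ≤ 3 * Jc K (x / 4) ∧
        A = {I ∈ Theta K x | 2 ≤ {p ∈ P2 K | p ∣ I}.ncard})) ∧
    ((P2 K).ncard = 4 → ∀ᶠ x : ℝ in atTop, ∀ A : Set (Ideal (𝓞 K)), IsExtremal K x A ↔
      (3 * Jc K (x / 4) ≤ Jc K (x / 2) + 2 * Jc K (x / 8) ∧
        ∃ η ∈ P2 K, A = {I ∈ Theta K x | η ∣ I}) ∨
      (Jc K (x / 2) + 2 * Jc K (x / 8) ≤ 3 * Jc K (x / 4) ∧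
        ∃ H, MaxInt K H ∧ (∀ η, {η} ∉ H) ∧ A = fam K H x)) ∧
    (∀ x₀ : ℝ, ∃ x : ℝ, x₀ ≤ x ∧ 3 * Jc K (x / 4) < Jc K (x / 2) + 2 * Jc K (x / 8)) ∧
    ∀ x₀ : ℝ, ∃ x : ℝ, x₀ ≤ x ∧ Jc K (x / 2) + 2 * Jc K (x / 8) < 3 * Jc K (x / 4) :=
  ⟨part1 K (Set.nonempty_of_ncard_ne_zero (by omega)), part2 K,
    fun _ _ hH hH' => ⟨part4a hH hH', fun hp => ⟨part4b hH hH' hp,
      part4b hH' hH (hp.imp fun _ h => h.symm)⟩⟩,
    fun _ hH => part5 hK hH, part3 K, fun h4 => part3' (Or.inr h4), (part6 K).1, (part6 K).2⟩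

end Pool.Agent.Results.MP_f07b9f_nt.Extremal
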